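import Mathlib

/-!
# Project OE (helper260), job NR4: Cauchy sequences in `L²` and closed countable sets
-/

set_option autoImplicit false

namespace Pool.Agent.Q153.OE

open MeasureTheory Filter Topology Set

theorem nsq {μ : Measure ℝ} (f : Lp ℂ 2 μ) : ‖f‖ ^ 2 = ∫ t, ‖f t‖ ^ 2 ∂μ := by
  have h1 : ((‖f‖ ^ 2 : ℝ) : ℂ) = inner ℂ f f := by
    rw [inner_self_eq_norm_sq_to_K]
    norm_cast
  have h2 : (inner ℂ f f : ℂ) = ((∫ t, ‖f t‖ ^ 2 ∂μ : ℝ) : ℂ) := by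
    rw [L2.inner_def, ← integral_complex_ofReal]
    refine integral_congr_ae (Eventually.of_forall fun t => ?_)
    simp only
    rw [inner_self_eq_norm_sq_to_K]
    norm_cast
  rw [h2] at h1
  exact_mod_cast h1

theorem nsq_toLp {μ : Measure ℝ} {g : ℝ → ℂ} (hg : MemLp g 2 μ) : ‖hg.toLp g‖ ^ 2 = ∫ t, ‖g t‖ ^ 2 ∂μ := by
  rw [nsq]
  refine integral_congr_ae ?_
  filter_upwards [hg.coeFn_toLp] with t ht
  rw [ht]

theorem abs_a (g : ℕ → ℝ → ℂ) (hg : ∀ N, MemLp (g N) 2 volume) (c : ℝ) (hc : 0 < c)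
    (hlow : ∀ᶠ N in atTop, c ≤ ∫ t, ‖g N t‖ ^ 2)
    (hC : ∀ η : ℝ, 0 < η → ∃ N0, ∀ N ≥ N0, ∫ t, ‖g N t - g N0 t‖ ^ 2 ≤ η) (Z : Set ℝ) (hZc : IsClosed Z)
    (hZ : Z.Countable) : ∃ α β d : ℝ, α < β ∧ 0 < d ∧ (∀ t ∈ Icc α β, t ∉ Z) ∧
      ∀ᶠ N in atTop, d ≤ ∫ t in α..β, ‖g N t‖ ^ 2 := by
  obtain ⟨T, hT⟩ : ∃ T : ℕ → Lp ℂ 2 (volume : Measure ℝ), ∀ N, T N = (hg N).toLp (g N) := ⟨_, fun _ => rfl⟩
  have hcs : CauchySeq T := by
    rw [Metric.cauchySeq_iff']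
    intro ε hε
    obtain ⟨N0, h0⟩ := hC (ε ^ 2 / 2) (by positivity)
    refine ⟨N0, fun n hn => ?_⟩
    have h1 : ‖T n - T N0‖ ^ 2 ≤ ε ^ 2 / 2 := by
      rw [hT, hT, ← MemLp.toLp_sub (hg n) (hg N0), nsq_toLp]
      exact h0 n hn
    rw [dist_eq_norm]
    have h2 : (0 : ℝ) < ε ^ 2 := by positivity
    exact lt_of_pow_lt_pow_left₀ 2 hε.le (by linarith)
  obtain ⟨L, hL⟩ := cauchySeq_tendsto_of_complete hcs
  have hLn : c ≤ ‖L‖ ^ 2 := by
    refine ge_of_tendsto ((hL.norm).pow 2) ?_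
    filter_upwards [hlow] with N hN
    rw [hT, nsq_toLp]
    exact hN
  obtain ⟨R, hR⟩ : ∃ R : (ℝ × ℝ) → Lp ℂ 2 (volume : Measure ℝ) → ℝ, ∀ z f,
      R z f = ‖LpToLpRestrictCLM ℝ ℂ ℂ volume 2 (Icc z.1 z.2) f‖ := ⟨_, fun _ _ => rfl⟩
  have hRint : ∀ z f, R z f ^ 2 = ∫ t in Icc z.1 z.2, ‖f t‖ ^ 2 := by
    intro z f
    rw [hR, nsq]
    refine integral_congr_ae ?_
    filter_upwards [LpToLpRestrictCLM_coeFn ℂ (Icc z.1 z.2) f] with t ht
    rw [ht]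
  have hRt : ∀ z, Tendsto (fun N => R z (T N)) atTop (𝓝 (R z L)) := by
    intro z
    simp only [hR]
    exact (((LpToLpRestrictCLM ℝ ℂ ℂ volume 2 (Icc z.1 z.2)).continuous.tendsto L).comp hL).norm
  -- an interval
  have hex : ∃ a b : ℚ, (a : ℝ) < b ∧ (∀ t ∈ Icc (a : ℝ) b, t ∉ Z) ∧ R ((a : ℝ), (b : ℝ)) L ≠ 0 := by
    by_contra hcon
    push Not at hcon
    have hz : ∀ᵐ t, L t = 0 := by
      have h1 : ∀ z : ℚ × ℚ, ∀ᵐ t : ℝ, ((z.1 : ℝ) < z.2 ∧ (∀ s ∈ Icc (z.1 : ℝ) z.2, s ∉ Z)) →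
          t ∈ Icc (z.1 : ℝ) z.2 → L t = 0 := by
        intro z
        by_cases hz : (z.1 : ℝ) < z.2 ∧ (∀ s ∈ Icc (z.1 : ℝ) z.2, s ∉ Z)
        · have h2 := hcon z.1 z.2 hz.1 hz.2
          rw [hR, norm_eq_zero] at h2
          have h3 := LpToLpRestrictCLM_coeFn ℂ (Icc (z.1 : ℝ) z.2) L
          rw [show (LpToLpRestrictCLM ℝ ℂ ℂ volume 2 (Icc (z.1 : ℝ) z.2)) L = 0 from h2] at h3
          have h4 : ∀ᵐ t ∂(volume.restrict (Icc (z.1 : ℝ) z.2)), L t = 0 := by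
            filter_upwards [h3, Lp.coeFn_zero ℂ 2 (volume.restrict (Icc (z.1 : ℝ) z.2))] with t ht1 ht2
            rw [← ht1, ht2]
            rfl
          rw [ae_restrict_iff' measurableSet_Icc] at h4
          filter_upwards [h4] with t ht _ htm
          exact ht htm
        · exact Eventually.of_forall fun t ht => absurd ht hz
      have h5 := ae_all_iff.2 h1
      have h6 : ∀ᵐ t : ℝ, t ∉ Z := by
        rw [ae_iff]
        simpa using hZ.measure_zero volume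
      filter_upwards [h5, h6] with t ht htZ
      obtain ⟨ε, hε, hball⟩ := Metric.isOpen_iff.1 hZc.isOpen_compl t htZ
      obtain ⟨a, ha1, ha2⟩ := exists_rat_btwn (show t - ε < t by linarith)
      obtain ⟨b, hb1, hb2⟩ := exists_rat_btwn (show t < t + ε by linarith)
      refine ht (a, b) ⟨lt_trans ha2 hb1, fun s hs => ?_⟩ ⟨ha2.le, hb1.le⟩
      refine hball ?_
      rw [Metric.mem_ball, Real.dist_eq, abs_lt]
      constructor
      · have := hs.1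
        simp only at this
        linarith
      · have := hs.2
        simp only at this
        linarith
    have hL0 : L = 0 := by
      refine Lp.ext ?_
      filter_upwards [hz, Lp.coeFn_zero ℂ 2 (volume : Measure ℝ)] with t h1 h2
      rw [h1, h2]
      rfl
    rw [hL0, norm_zero] at hLn
    norm_num at hLn
    linarith
  obtain ⟨a, b, hab, hZab, hRL⟩ := hex
  have hRL2 : 0 < R ((a : ℝ), (b : ℝ)) L ^ 2 := by positivity
  refine ⟨a, b, R ((a : ℝ), (b : ℝ)) L ^ 2 / 2, hab, by positivity, hZab, ?_⟩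
  have h7 := ((hRt ((a : ℝ), (b : ℝ))).pow 2).eventually (lt_mem_nhds (half_lt_self hRL2))
  filter_upwards [h7] with N hN
  have hN2 : R ((a : ℝ), (b : ℝ)) L ^ 2 / 2 < R ((a : ℝ), (b : ℝ)) (T N) ^ 2 := hN
  rw [hRint _ (T N)] at hN2
  refine hN2.le.trans (le_of_eq ?_)
  rw [intervalIntegral.integral_of_le hab.le, ← integral_Icc_eq_integral_Ioc]
  refine integral_congr_ae ?_
  have h8 := (hg N).coeFn_toLp
  rw [← hT] at h8
  filter_upwards [ae_restrict_of_ae h8] with t ht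
  rw [ht]

end Pool.Agent.Q153.OE
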