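import Pool.Agent.Q260.OE.Stm2
import Pool.Agent.Q153.OE.Abs

/-!
# Project OE (helper260), job NR4: if the Riemann hypothesis fails some frequencies without zeros stay
-/

set_option autoImplicit false

namespace Pool.Agent.Q153.OE

open Complex MeasureTheory Filter Topology Set
open Pool.Agent.Q286.BD (cl mz dif difC JJ difR JR S_nrh S_mel S_cnt)
open Pool.Agent.Q260.OE

theorem cl_sq (t : ℝ) : ‖cl t‖ ^ 2 = 1 / 4 + t ^ 2 := by
  rw [← Complex.normSq_eq_norm_sq, Complex.normSq_apply]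
  simp [cl]
  ring

theorem cl_ne (t : ℝ) : cl t ≠ 0 := by
  intro h
  have h1 := cl_sq t
  rw [h, norm_zero] at h1
  nlinarith [sq_nonneg t]

theorem cl_ne1 (t : ℝ) : cl t ≠ 1 := by
  intro h
  have h1 := congrArg Complex.re h
  simp [cl] at h1

theorem cont_cl : Continuous cl := by
  unfold cl
  fun_prop

theorem cont_zc : Continuous fun t : ℝ => riemannZeta (cl t) := by
  rw [continuous_iff_continuousAt]
  intro t
  exact (differentiableAt_riemannZeta (cl_ne1 t)).continuousAt.comp cont_cl.continuousAt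

theorem cont_Tn (N : ℕ) (a : ℕ → ℝ) : Continuous (Tn N a) := by
  unfold Tn
  refine continuous_const.add (cont_zc.mul (continuous_finsetSum _ fun n hn => continuous_const.mul ?_))
  have hn0 : (n : ℂ) ≠ 0 := by
    have := (Finset.mem_Icc.1 hn).1
    exact_mod_cast (by omega : n ≠ 0)
  exact Continuous.const_cpow cont_cl.neg (Or.inl hn0)

theorem mel_re (hmel : S_mel) {N : ℕ} (hN : 1 ≤ N) (a : ℕ → ℝ) :
    Integrable (fun t : ℝ => ‖Tn N a t‖ ^ 2 / (1 / 4 + t ^ 2)) ∧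
      JJ N a = 1 / (2 * Real.pi) * ∫ t : ℝ, ‖Tn N a t‖ ^ 2 / (1 / 4 + t ^ 2) := by
  obtain ⟨h1, h2, h3⟩ := hmel N (fun n => (a n : ℂ)) hN
  refine ⟨h1, ?_⟩
  have h4 : JJ N a = ∫ x in Ioi (0 : ℝ), ‖difC N (fun n => (a n : ℂ)) x‖ ^ 2 := by
    unfold JJ
    refine integral_congr_ae (Eventually.of_forall fun x => ?_)
    have h5 : difC N (fun n => (a n : ℂ)) x = ((dif N a x : ℝ) : ℂ) := by
      unfold difC dif
      push_cast
      rfl
    show dif N a x ^ 2 = ‖difC N (fun n => (a n : ℂ)) x‖ ^ 2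
    rw [h5, Complex.norm_real, Real.norm_eq_abs, sq_abs]
  rw [h4, h3]
  rfl

theorem sum_ext {X : Type} [AddCommMonoid X] {N M : ℕ} (hNM : N ≤ M) (f : ℕ → X)
    (h : ∀ n, ¬ (1 ≤ n ∧ n ≤ N) → f n = 0) : ∑ n ∈ Finset.Icc 1 M, f n = ∑ n ∈ Finset.Icc 1 N, f n := by
  symm
  refine Finset.sum_subset (Finset.Icc_subset_Icc_right hNM) fun n _ hn => ?_
  exact h n fun hh => hn (Finset.mem_Icc.2 hh)

theorem JJ_ext {N M : ℕ} (hNM : N ≤ M) {a : ℕ → ℝ} (h : ∀ n, ¬ (1 ≤ n ∧ n ≤ N) → a n = 0) :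
    JJ M a = JJ N a := by
  unfold JJ dif
  refine integral_congr_ae (Eventually.of_forall fun x => ?_)
  simp only
  rw [sum_ext hNM _ fun n hn => by rw [h n hn, zero_mul]]

theorem Tn_ext {N M : ℕ} (hNM : N ≤ M) {a : ℕ → ℝ} (h : ∀ n, ¬ (1 ≤ n ∧ n ≤ N) → a n = 0) (t : ℝ) :
    Tn M a t = Tn N a t := by
  unfold Tn
  rw [sum_ext hNM _ fun n hn => by rw [h n hn, Complex.ofReal_zero, zero_mul]]

theorem mono {a : ℕ → ℕ → ℝ} (ha : ∀ N, Best N (a N)) {N M : ℕ} (h : N ≤ M) : JJ M (a M) ≤ JJ N (a N) := by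
  rw [← JJ_ext h (ha N).1]
  exact (ha M).2 (a N)

theorem inv_pi {x I : ℝ} (h : x = 1 / (2 * Real.pi) * I) : I = 2 * Real.pi * x := by
  have hpi := Real.pi_pos
  rw [h]
  field_simp

/-- the parallelogram law -/
theorem par (hmel : S_mel) {a : ℕ → ℕ → ℝ} (ha : ∀ N, Best N (a N)) {N M : ℕ} (hN : 1 ≤ N) (h : N ≤ M) :
    ∫ t : ℝ, ‖Tn M (a M) t - Tn N (a N) t‖ ^ 2 / (1 / 4 + t ^ 2) ≤
      4 * Real.pi * (JJ N (a N) - JJ M (a M)) := by
  have hM : 1 ≤ M := hN.trans h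
  obtain ⟨i1, e1⟩ := mel_re hmel hM (a M)
  obtain ⟨i2, e2⟩ := mel_re hmel hM (a N)
  obtain ⟨i3, e3⟩ := mel_re hmel hM (fun n => (a M n + a N n) / 2)
  have hmid := (ha M).2 (fun n => (a M n + a N n) / 2)
  rw [JJ_ext h (ha N).1] at e2
  have hT : ∀ t, Tn M (fun n => (a M n + a N n) / 2) t = (Tn M (a M) t + Tn N (a N) t) / 2 := by
    intro t
    rw [← Tn_ext h (ha N).1]
    unfold Tn
    have : ∑ n ∈ Finset.Icc 1 M, (((a M n + a N n) / 2 : ℝ) : ℂ) * (n : ℂ) ^ (-cl t) =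
        (∑ n ∈ Finset.Icc 1 M, ((a M n : ℝ) : ℂ) * (n : ℂ) ^ (-cl t) +
          ∑ n ∈ Finset.Icc 1 M, ((a N n : ℝ) : ℂ) * (n : ℂ) ^ (-cl t)) / 2 := by
      rw [← Finset.sum_add_distrib, Finset.sum_div]
      refine Finset.sum_congr rfl fun n _ => ?_
      push_cast
      ring
    rw [this]
    ring
  have hpt : ∀ t : ℝ, ‖Tn M (a M) t - Tn N (a N) t‖ ^ 2 / (1 / 4 + t ^ 2) =
      2 * (‖Tn M (a M) t‖ ^ 2 / (1 / 4 + t ^ 2)) + 2 * (‖Tn M (a N) t‖ ^ 2 / (1 / 4 + t ^ 2)) -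
        4 * (‖Tn M (fun n => (a M n + a N n) / 2) t‖ ^ 2 / (1 / 4 + t ^ 2)) := by
    intro t
    rw [hT, Tn_ext h (ha N).1]
    have h5 := parallelogram_law_with_norm ℝ (Tn M (a M) t) (Tn N (a N) t)
    have h6 : ‖(Tn M (a M) t + Tn N (a N) t) / 2‖ ^ 2 = ‖Tn M (a M) t + Tn N (a N) t‖ ^ 2 / 4 := by
      rw [norm_div, div_pow]
      norm_num
    rw [h6]
    have h7 : ‖Tn M (a M) t - Tn N (a N) t‖ ^ 2 = 2 * ‖Tn M (a M) t‖ ^ 2 + 2 * ‖Tn N (a N) t‖ ^ 2 -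
        ‖Tn M (a M) t + Tn N (a N) t‖ ^ 2 := by nlinarith [h5]
    rw [h7]
    ring
  have hint : ∫ t : ℝ, ‖Tn M (a M) t - Tn N (a N) t‖ ^ 2 / (1 / 4 + t ^ 2) =
      2 * (∫ t : ℝ, ‖Tn M (a M) t‖ ^ 2 / (1 / 4 + t ^ 2)) + 2 * (∫ t : ℝ, ‖Tn M (a N) t‖ ^ 2 / (1 / 4 + t ^ 2)) -
        4 * (∫ t : ℝ, ‖Tn M (fun n => (a M n + a N n) / 2) t‖ ^ 2 / (1 / 4 + t ^ 2)) := by
    have i12 : Integrable (fun t : ℝ => 2 * (‖Tn M (a M) t‖ ^ 2 / (1 / 4 + t ^ 2)) +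
        2 * (‖Tn M (a N) t‖ ^ 2 / (1 / 4 + t ^ 2))) := (i1.const_mul 2).add (i2.const_mul 2)
    rw [integral_congr_ae (Eventually.of_forall hpt), integral_sub i12
      (i3.const_mul 4), integral_add (i1.const_mul 2) (i2.const_mul 2), integral_const_mul, integral_const_mul,
      integral_const_mul]
  have hpi := Real.pi_pos
  have f1 := inv_pi e1
  have f2 := inv_pi e2
  have f3 := inv_pi e3
  rw [hint, f1, f2, f3]
  nlinarith [mul_le_mul_of_nonneg_left hmid hpi.le]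

/-- the set of the zeros is countable -/
theorem go_count (hcnt : S_cnt) : {g : ℝ | riemannZeta (cl g) = 0}.Countable := by
  obtain ⟨K0, hK⟩ := hcnt
  have h1 : {g : ℝ | riemannZeta (cl g) = 0} =
      ⋃ k : ℤ, {g : ℝ | riemannZeta (cl g) = 0} ∩ Icc (k : ℝ) (k + 1) := by
    rw [← Set.inter_iUnion]
    symm
    rw [Set.inter_eq_left]
    intro g _
    rw [Set.mem_iUnion]
    exact ⟨⌊g⌋, Int.floor_le g, (Int.lt_floor_add_one g).le⟩
  rw [h1]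
  exact Set.countable_iUnion fun k => (hK k).1.countable

theorem t_NR4 (hnrh : S_nrh) (hmel : S_mel) (hcnt : S_cnt) : S_NR4 := by
  intro hRH a ha
  obtain ⟨c, hc, hlow⟩ := hnrh hRH
  have hpi := Real.pi_pos
  obtain ⟨G, hG⟩ : ∃ G : ℕ → ℝ → ℂ, ∀ N t, G N t = Tn (N + 1) (a (N + 1)) t / cl t := ⟨_, fun _ _ => rfl⟩
  have hGn : ∀ N t, ‖G N t‖ ^ 2 = ‖Tn (N + 1) (a (N + 1)) t‖ ^ 2 / (1 / 4 + t ^ 2) := by
    intro N t
    rw [hG, norm_div, div_pow, cl_sq]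
  have hGc : ∀ N, Continuous (G N) := by
    intro N
    have : G N = fun t => Tn (N + 1) (a (N + 1)) t / cl t := funext (hG N)
    rw [this]
    exact (cont_Tn _ _).div cont_cl cl_ne
  have hGm : ∀ N, MemLp (G N) 2 volume := by
    intro N
    rw [memLp_two_iff_integrable_sq_norm (hGc N).aestronglyMeasurable]
    refine (mel_re hmel (N := N + 1) (by omega) (a (N + 1))).1.congr (Eventually.of_forall fun t => ?_)
    exact (hGn N t).symm
  have hGi : ∀ N, ∫ t, ‖G N t‖ ^ 2 = 2 * Real.pi * JJ (N + 1) (a (N + 1)) := by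
    intro N
    have h1 := inv_pi (mel_re hmel (N := N + 1) (by omega) (a (N + 1))).2
    simp only [hGn]
    exact h1
  have hbdd : BddBelow (Set.range fun N => JJ (N + 1) (a (N + 1))) := by
    refine ⟨c, ?_⟩
    rintro _ ⟨N, rfl⟩
    exact hlow _ _
  have hanti : Antitone fun N => JJ (N + 1) (a (N + 1)) := fun N M h => mono ha (by omega)
  obtain ⟨ℓ, hℓ⟩ : ∃ ℓ : ℝ, ℓ = ⨅ i, JJ (i + 1) (a (i + 1)) := ⟨_, rfl⟩
  have hlim : Tendsto (fun N => JJ (N + 1) (a (N + 1))) atTop (𝓝 ℓ) := by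
    rw [hℓ]
    exact tendsto_atTop_ciInf hanti hbdd
  have hle : ∀ N, ℓ ≤ JJ (N + 1) (a (N + 1)) := by
    intro N
    rw [hℓ]
    exact ciInf_le hbdd N
  have hCc : ∀ η : ℝ, 0 < η → ∃ N0, ∀ N ≥ N0, ∫ t, ‖G N t - G N0 t‖ ^ 2 ≤ η := by
    intro η hη
    have h5 : 0 < η / (4 * Real.pi) := by positivity
    have h6 := (tendsto_order.1 hlim).2 (ℓ + η / (4 * Real.pi)) (by linarith)
    obtain ⟨N0, h0⟩ := eventually_atTop.1 h6
    refine ⟨N0, fun N hN => ?_⟩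
    have h7 := par hmel ha (N := N0 + 1) (M := N + 1) (by omega) (by omega)
    have h8 : ∀ t, ‖G N t - G N0 t‖ ^ 2 =
        ‖Tn (N + 1) (a (N + 1)) t - Tn (N0 + 1) (a (N0 + 1)) t‖ ^ 2 / (1 / 4 + t ^ 2) := by
      intro t
      rw [hG, hG, ← sub_div, norm_div, div_pow, cl_sq]
    simp only [h8]
    refine h7.trans ?_
    have h9 := h0 N0 le_rfl
    have h10 := hle N
    have h11 : JJ (N0 + 1) (a (N0 + 1)) - JJ (N + 1) (a (N + 1)) ≤ η / (4 * Real.pi) := by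
      linarith
    calc 4 * Real.pi * (JJ (N0 + 1) (a (N0 + 1)) - JJ (N + 1) (a (N + 1)))
        ≤ 4 * Real.pi * (η / (4 * Real.pi)) := mul_le_mul_of_nonneg_left h11 (by positivity)
      _ = η := by field_simp
  obtain ⟨α, β, d, hαβ, hd, hZ, hev⟩ := abs_a G hGm (2 * Real.pi * c) (by positivity)
    (Eventually.of_forall fun N => by
      rw [hGi]
      exact mul_le_mul_of_nonneg_left (hlow _ _) (by positivity)) hCc {g : ℝ | riemannZeta (cl g) = 0}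
    (isClosed_eq cont_zc continuous_const) (go_count hcnt)
  refine ⟨α, β, 1 / (2 * Real.pi) * d / JJ 1 (a 1), hαβ, ?_, fun t ht h0 => hZ t ht h0, ?_⟩
  · have h1 : 0 < JJ 1 (a 1) := lt_of_lt_of_le hc (hlow 1 (a 1))
    positivity
  · rw [eventually_atTop] at hev ⊢
    obtain ⟨N0, h0⟩ := hev
    refine ⟨N0 + 1, fun N hN => ?_⟩
    obtain ⟨k, rfl⟩ : ∃ k, N = k + 1 := ⟨N - 1, by omega⟩
    have h1 := h0 k (by omega)
    simp only [hGn] at h1
    have h2 := hlow (k + 1) (a (k + 1))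
    have h3 : JJ (k + 1) (a (k + 1)) ≤ JJ 1 (a 1) := mono ha (by omega)
    have h4 : 0 < JJ (k + 1) (a (k + 1)) := by linarith
    have h5 : 0 ≤ ∫ t in α..β, ‖Tn (k + 1) (a (k + 1)) t‖ ^ 2 / (1 / 4 + t ^ 2) := hd.le.trans h1
    exact div_le_div₀ (mul_nonneg (by positivity) h5) (mul_le_mul_of_nonneg_left h1 (by positivity)) h4 h3

end Pool.Agent.Q153.OE
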